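import Pool.Agent.V11101.RcE

/-!
# MP_b01677_an, Q2

For every `d ≥ 1` and every bounded Lebesgue measurable `E ⊆ ℝ^d` of positive measure, a magnified
copy of `E` can be reconstructed using `14 d + 1` test sets.
-/

namespace Pool.Agent.Results.MP_b01677_an.FiniteTestSets

open MeasureTheory Set
open scoped Pointwise

/-- The set `r E + x`. -/
def copy {d : ℕ} (E : Set (Fin d → ℝ)) (r : ℝ) (x : Fin d → ℝ) : Set (Fin d → ℝ) :=
  {y | ∃ z ∈ E, y = r • z + x}

/-- The family `M(E)` of magnified copies of `E`. -/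
def Magnified {d : ℕ} (E : Set (Fin d → ℝ)) : Set (Set (Fin d → ℝ)) :=
  {A | ∃ (r : ℝ) (x : Fin d → ℝ), 1 ≤ r ∧ A = copy E r x}

/-- An element of the family `𝒜` can be reconstructed using `n` (Lebesgue measurable) test sets. -/
def Reconstructible {d : ℕ} (𝒜 : Set (Set (Fin d → ℝ))) (n : ℕ) : Prop :=
  ∃ T : Fin n → Set (Fin d → ℝ), (∀ i, NullMeasurableSet (T i) volume) ∧
    ∀ A ∈ 𝒜, ∀ B ∈ 𝒜, (∀ i, volume (A ∩ T i) = volume (B ∩ T i)) → A = B

open Pool.Agent.V11101.Rc

/-- Volume of the part of a copy inside the preimage of a coordinate set. -/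
lemma volume_copy_inter {d : ℕ} (E : Set (Fin d → ℝ)) (r : ℝ) (x : Fin d → ℝ)
    (T : Set (Fin d → ℝ)) :
    volume (copy E r x ∩ T) = ENNReal.ofReal |r ^ d| * volume (E ∩ {z | r • z + x ∈ T}) := by
  have h1 : copy E r x ∩ T = (fun y => y + x) '' (r • (E ∩ {z | r • z + x ∈ T})) := by
    ext y
    simp only [copy, Set.mem_inter_iff, Set.mem_image, Set.mem_smul_set]
    constructor
    · rintro ⟨⟨z, hz, rfl⟩, hT⟩
      exact ⟨r • z, ⟨z, ⟨hz, hT⟩, rfl⟩, rfl⟩
    · rintro ⟨_, ⟨z, ⟨hz, hT⟩, rfl⟩, rfl⟩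
      exact ⟨⟨z, hz, rfl⟩, hT⟩
  rw [h1, Set.image_add_right, measure_preimage_add_right, Measure.addHaar_smul]
  simp

theorem result : ∀ d : ℕ, 0 < d → ∀ E : Set (Fin d → ℝ), NullMeasurableSet E volume →
    Bornology.IsBounded E → 0 < volume E → Reconstructible (Magnified E) (14 * d + 1) := by
  classical
  intro d hd E _ hEb hE0
  -- boundedness
  obtain ⟨ρ0, hρ0⟩ := hEb.subset_closedBall (0 : Fin d → ℝ)
  set ρ := max ρ0 1 with hρdef
  have hρ1 : 1 ≤ ρ := le_max_right _ _
  have hρpos : 0 < ρ := by linarith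
  have hEρ : ∀ z ∈ E, ∀ i, z i ∈ Icc (-ρ) ρ := by
    intro z hz i
    have h1 := hρ0 hz
    rw [mem_closedBall_zero_iff] at h1
    have h2 := norm_le_pi_norm z i
    rw [Real.norm_eq_abs] at h2
    have h3 : |z i| ≤ ρ := h2.trans (h1.trans (le_max_left _ _))
    rw [abs_le] at h3
    exact h3
  have hEfin : volume E < ⊤ := hEb.measure_lt_top
  have : IsFiniteMeasure (volume.restrict E) := ⟨by simpa using hEfin⟩
  -- marginals
  let ν : Fin d → Measure ℝ := fun i => (volume.restrict E).map (fun z => z i)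
  have hmeas : ∀ i : Fin d, Measurable (fun z : Fin d → ℝ => z i) := fun i => measurable_pi_apply i
  have hνapp : ∀ i (s : Set ℝ), MeasurableSet s → ν i s = volume (E ∩ {z | z i ∈ s}) := by
    intro i s hs
    simp only [ν]
    rw [Measure.map_apply (hmeas i) hs, Measure.restrict_apply (hmeas i hs), Set.inter_comm]
    rfl
  have hνfin : ∀ i, IsFiniteMeasure (ν i) := fun i => by
    simp only [ν]; infer_instance
  set B : ℝ := (2 * ρ) ^ (d - 1) with hB
  have hBpos : 0 < B := by positivity
  have hνle : ∀ i, ν i ≤ ENNReal.ofReal B • (volume : Measure ℝ) := by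
    intro i
    rw [Measure.le_iff]
    intro s hs
    rw [hνapp i s hs]
    have hsub : E ∩ {z | z i ∈ s} ⊆ Set.pi Set.univ (fun j => if j = i then s else Icc (-ρ) ρ) := by
      rintro z ⟨hz, hzs⟩ j _
      by_cases hji : j = i
      · subst hji; simpa using hzs
      · simp only [if_neg hji]; exact hEρ z hz j
    refine (measure_mono hsub).trans ?_
    rw [volume_pi_pi]
    have hprod : ∏ j, volume (if j = i then s else Icc (-ρ) ρ)
        = volume s * ENNReal.ofReal (2 * ρ) ^ (d - 1) := by
      rw [Fintype.prod_eq_mul_prod_compl i]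
      simp only [if_true]
      congr 1
      rw [Finset.prod_congr rfl (g := fun _ => ENNReal.ofReal (2 * ρ))]
      · rw [Finset.prod_const, Finset.card_compl, Finset.card_singleton, Fintype.card_fin]
      · intro j hj
        have hji : j ≠ i := by simpa using hj
        rw [if_neg hji, Real.volume_Icc]
        congr 1; ring
    rw [hprod, hB]
    simp only [Measure.smul_apply, smul_eq_mul]
    rw [ENNReal.ofReal_pow (by positivity), mul_comm]
  have hνsupp : ∀ i, ν i (Icc (-ρ) ρ)ᶜ = 0 := by
    intro i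
    rw [hνapp i _ measurableSet_Icc.compl]
    have : E ∩ {z | z i ∈ (Icc (-ρ) ρ)ᶜ} = ∅ := by
      ext z
      simp only [Set.mem_inter_iff, Set.mem_empty_iff_false, iff_false, not_and]
      intro hz hz'
      exact hz' (hEρ z hz i)
    rw [this]; simp
  have hνpos : ∀ i, 0 < (ν i).real univ := by
    intro i
    rw [Measure.real, hνapp i _ MeasurableSet.univ]
    have : E ∩ {z | z i ∈ (univ : Set ℝ)} = E := by ext z; simp
    rw [this]
    exact ENNReal.toReal_pos hE0.ne' hEfin.ne
  have hone := fun i => oneD (ν i) B ρ hBpos hρpos.le (hνle i) (hνsupp i) (hνpos i)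
  choose S hSm hSsep using hone
  -- test sets
  let T' : Option (Fin d × Fin 14) → Set (Fin d → ℝ) := fun o =>
    match o with
    | none => univ
    | some q => {y | y q.1 ∈ S q.1 q.2}
  have hT'm : ∀ o, MeasurableSet (T' o) := by
    rintro (_ | q)
    · exact MeasurableSet.univ
    · exact hmeas q.1 (hSm q.1 q.2)
  have hcard : Fintype.card (Option (Fin d × Fin 14)) = 14 * d + 1 := by
    rw [Fintype.card_option, Fintype.card_prod, Fintype.card_fin, Fintype.card_fin]; ring
  let eqv : Option (Fin d × Fin 14) ≃ Fin (14 * d + 1) := Fintype.equivFinOfCardEq hcard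
  refine ⟨fun i => T' (eqv.symm i), fun i => (hT'm _).nullMeasurableSet, ?_⟩
  rintro A ⟨r, x, hr, rfl⟩ B' ⟨r', x', hr', rfl⟩ hall
  have hall' : ∀ o, volume (copy E r x ∩ T' o) = volume (copy E r' x' ∩ T' o) := by
    intro o
    have := hall (eqv o)
    simpa using this
  have hrpow : ∀ s : ℝ, 1 ≤ s → |s ^ d| = s ^ d := fun s hs => abs_of_nonneg (by positivity)
  -- equality of the ratios
  have hrr : r = r' := by
    have h0 := hall' none
    rw [volume_copy_inter, volume_copy_inter, hrpow r hr, hrpow r' hr'] at h0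
    have e1 : E ∩ {z | r • z + x ∈ T' none} = E := by ext z; simp [T']
    have e2 : E ∩ {z | r' • z + x' ∈ T' none} = E := by ext z; simp [T']
    rw [e1, e2] at h0
    have h1 := (ENNReal.mul_left_inj hE0.ne' hEfin.ne).mp h0
    have h2 : r ^ d = r' ^ d := by
      have := congrArg ENNReal.toReal h1
      rwa [ENNReal.toReal_ofReal (by positivity), ENNReal.toReal_ofReal (by positivity)] at this
    exact (pow_left_inj₀ (by linarith) (by linarith) hd.ne').mp h2
  subst hrr
  have hxx : x = x' := by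
    funext i
    by_contra hne
    obtain ⟨k, hk⟩ := hSsep i r (x i) (x' i) hr hne
    apply hk
    have h0 := hall' (some (i, k))
    rw [volume_copy_inter, volume_copy_inter, hrpow r hr] at h0
    have hc0 : ENNReal.ofReal (r ^ d) ≠ 0 := by
      rw [Ne, ENNReal.ofReal_eq_zero, not_le]; positivity
    have h1 := (ENNReal.mul_right_inj hc0 ENNReal.ofReal_ne_top).mp h0
    have e : ∀ w : Fin d → ℝ, volume (E ∩ {z | r • z + w ∈ T' (some (i, k))})
        = ν i (pre (S i k) r (w i)) := by
      intro w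
      rw [hνapp i _ (measurable_pre (hSm i k) r (w i))]
      rfl
    rw [e, e] at h1
    unfold G
    rw [Measure.real, Measure.real, h1]
  rw [hxx]

end Pool.Agent.Results.MP_b01677_an.FiniteTestSets
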